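import Pool.Agent.Lib.CoCF.Final
import Pool.Agent.Lib.CoCF.Reduction

/-!
# No Houghton group `H_n` (`n ≥ 3`) and no Higman–Thompson group `G_{n,r}` is semi-deterministic
co-context-free
-/

set_option autoImplicit false

namespace Pool.Agent.Results.MP_159a57_lc.NotSemiDeterministic

open Pool.Agent.Lib.CoCF

theorem result :
    (∀ n : ℕ, 3 ≤ n → ¬ SemiDetCoCF (Houghton n)) ∧
      ∀ n r : ℕ, 2 ≤ n → 1 ≤ r → ¬ SemiDetCoCF (HigmanThompson n r) :=
  ⟨fun _ hn hG => main (reduction_houghton hn hG),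
    fun _ _ hn hr hG => main (reduction_higmanThompson hn hr hG)⟩

end Pool.Agent.Results.MP_159a57_lc.NotSemiDeterministic
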